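import Mathlib

/-!
# Zero-cycles with rational coefficients modulo rational equivalence on a projective variety over an
algebraic closure, and the action of the Galois group
-/

set_option autoImplicit false
set_option linter.unusedSectionVars false

namespace Pool.Agent.Run7.h508.ZC

open Polynomial

variable {k : Type} [Field k] (Ω : Type) [Field Ω] [Algebra k Ω] {n : ℕ}
  (I : Set (MvPolynomial (Fin (n + 1)) k))

/-- homogeneous coordinates of the points over `Ω` of the projective variety with the equations
`F = 0`, `F ∈ I` -/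
def Pt : Type := {v : Fin (n + 1) → Ω // v ≠ 0 ∧ ∀ F ∈ I, MvPolynomial.aeval v F = 0}

/-- a morphism to the variety from a finite étale cover of an open part of the affine line -/
structure Family where
  /-- the open part is `f ≠ 0` -/
  f : (Polynomial Ω)
  /-- the ring of the open part -/
  R : Type
  [ringR : CommRing R]
  [algR : Algebra (Polynomial Ω) R]
  [loc : IsLocalization.Away f R]
  /-- the ring of the cover -/
  B : Type
  [ringB : CommRing B]
  [algB : Algebra R B]
  [fin : Module.Finite R B]
  [etale : Algebra.Etale R B]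
  /-- the homogeneous coordinates of the morphism -/
  x : Fin (n + 1) → B
  span_x : Ideal.span (Set.range x) = ⊤
  eqn : ∀ F ∈ I, MvPolynomial.eval₂ (((algebraMap R B).comp (algebraMap (Polynomial Ω) R)).comp
    (C.comp (algebraMap k Ω))) x F = 0

attribute [instance] Family.ringR Family.algR Family.loc Family.ringB Family.algB Family.fin
  Family.etale

variable {Ω I}

/-- the structure map of the cover -/
noncomputable def Family.base (D : Family Ω I) : (Polynomial Ω) →+* D.B :=
  (algebraMap D.R D.B).comp (algebraMap (Polynomial Ω) D.R)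

/-- the points of the cover over the point `a` of the line -/
@[ext]
structure Family.Fib (D : Family Ω I) (a : Ω) where
  /-- the evaluation -/
  hom : D.B →+* Ω
  comp : ∀ q : (Polynomial Ω), hom (D.base q) = q.eval a

/-- the image of a point of the cover -/
def Family.pt (D : Family Ω I) {a : Ω} (β : D.Fib a) : Pt Ω I :=
  ⟨fun i => β.hom (D.x i), by
    constructor
    · intro h
      have h1 : (1 : D.B) ∈ Ideal.span (Set.range D.x) := by
        rw [D.span_x]
        trivial
      have h2 : Ideal.span (Set.range D.x) ≤ RingHom.ker β.hom := by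
        rw [Ideal.span_le]
        rintro _ ⟨i, rfl⟩
        exact congrFun h i
      have h3 : β.hom 1 = 0 := h2 h1
      rw [map_one] at h3
      exact one_ne_zero h3
    · intro F hF
      have h1 := congrArg β.hom (D.eqn F hF)
      rw [map_zero, MvPolynomial.hom_eval₂] at h1
      rw [MvPolynomial.aeval_def]
      have h2 : β.hom.comp (((algebraMap D.R D.B).comp (algebraMap (Polynomial Ω) D.R)).comp
          (C.comp (algebraMap k Ω))) = algebraMap k Ω := by
        ext c
        have h3 := β.comp (C (algebraMap k Ω c))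
        rw [eval_C] at h3
        exact h3
      rw [h2] at h1
      exact h1⟩

open Classical in
/-- the cycle of the points over `a` -/
noncomputable def Family.fiber (D : Family Ω I) (a : Ω) : Pt Ω I →₀ ℚ :=
  ∑ᶠ β : D.Fib a, Finsupp.single (D.pt β) 1

variable (Ω I) in
/-- the cycles rationally equivalent to zero -/
noncomputable def rat : Submodule ℚ (Pt Ω I →₀ ℚ) := Submodule.span ℚ
  ({z | ∃ (P Q : Pt Ω I) (c : Ω), Q.1 = c • P.1 ∧ z = Finsupp.single Q 1 - Finsupp.single P 1} ∪
    {z | ∃ (D : Family Ω I) (a b : Ω), D.f.eval a ≠ 0 ∧ D.f.eval b ≠ 0 ∧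
      z = D.fiber a - D.fiber b})

section act

lemma loc_conj {A R : Type} [CommRing A] [CommRing R] [Algebra A R] (f : A)
    [IsLocalization.Away f R] (e : A ≃+* A) : @IsLocalization.Away A _ (e f) R _
      (((algebraMap A R).comp e.symm.toRingHom).toAlgebra) := by
  have h1 := IsLocalization.isLocalization_of_base_ringEquiv (M := Submonoid.powers f) R e
  have h2 : (Submonoid.powers f).map (e : A →* A) = Submonoid.powers (e f) :=
    Submonoid.map_powers _ _
  have h3 : Submonoid.map (e : A →* A) (Submonoid.powers f) = Submonoid.powers (e f) := h2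
  unfold IsLocalization.Away
  rw [← h3]
  exact h1

variable (σ : Ω ≃ₐ[k] Ω)

/-- the action on points -/
def Pt.act (P : Pt Ω I) : Pt Ω I :=
  ⟨fun i => σ (P.1 i), by
    constructor
    · intro h
      apply P.2.1
      funext i
      have h1 := congrFun h i
      exact (map_eq_zero σ).mp h1
    · intro F hF
      have h1 := congrArg σ (P.2.2 F hF)
      rw [map_zero] at h1
      have h2 : σ (MvPolynomial.aeval P.1 F) = MvPolynomial.aeval (fun i => σ (P.1 i)) F := by
        have h3 := MvPolynomial.comp_aeval_apply (f := P.1) (σ : Ω →ₐ[k] Ω) F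
        exact h3
      rw [← h2]
      exact h1⟩

/-- the action on cycles -/
noncomputable def cact : (Pt Ω I →₀ ℚ) →ₗ[ℚ] (Pt Ω I →₀ ℚ) := Finsupp.lmapDomain ℚ ℚ (Pt.act σ)

lemma cact_single (P : Pt Ω I) (c : ℚ) :
    cact σ (Finsupp.single P c) = Finsupp.single (P.act σ) c := by
  rw [cact, Finsupp.lmapDomain_apply, Finsupp.mapDomain_single]

/-- the automorphism of the polynomial ring -/
noncomputable def pol : (Polynomial Ω) ≃+* (Polynomial Ω) := Polynomial.mapEquiv (σ : Ω ≃+* Ω)

lemma pol_C (c : k) : (pol σ).symm (C (algebraMap k Ω c)) = C (algebraMap k Ω c) := by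
  rw [RingEquiv.symm_apply_eq]
  change _ = Polynomial.map _ (C (algebraMap k Ω c))
  rw [Polynomial.map_C]
  congr 1
  exact (σ.commutes c).symm

/-- the conjugate family -/
noncomputable def Family.conj (D : Family Ω I) : Family Ω I where
  f := pol σ D.f
  R := D.R
  ringR := D.ringR
  algR := ((algebraMap (Polynomial Ω) D.R).comp (pol σ).symm.toRingHom).toAlgebra
  loc := loc_conj D.f (pol σ)
  B := D.B
  ringB := D.ringB
  algB := D.algB
  fin := D.fin
  etale := D.etale
  x := D.x
  span_x := D.span_x
  eqn := by
    intro F hF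
    have h1 := D.eqn F hF
    have h2 : ((algebraMap D.R D.B).comp (((algebraMap (Polynomial Ω) D.R).comp
        (pol σ).symm.toRingHom))).comp (C.comp (algebraMap k Ω)) =
        ((algebraMap D.R D.B).comp (algebraMap (Polynomial Ω) D.R)).comp
        (C.comp (algebraMap k Ω)) := by
      ext c
      change algebraMap D.R D.B (algebraMap (Polynomial Ω) D.R
        ((pol σ).symm (C (algebraMap k Ω c)))) = _
      rw [pol_C]
      rfl
    exact (congrArg (fun g => MvPolynomial.eval₂ g D.x F) h2).trans h1

lemma Pt.act_injective : Function.Injective (Pt.act σ : Pt Ω I → Pt Ω I) := by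
  intro P Q h
  apply Subtype.ext
  funext i
  exact σ.injective (congrFun (congrArg Subtype.val h) i)

lemma cact_injective : Function.Injective (cact σ : (Pt Ω I →₀ ℚ) →ₗ[ℚ] (Pt Ω I →₀ ℚ)) :=
  Finsupp.mapDomain_injective (Pt.act_injective σ)

lemma eval_pol (a : Ω) (q : (Polynomial Ω)) : (pol σ q).eval (σ a) = σ (q.eval a) :=
  Polynomial.eval_map_apply (f := (σ : Ω →+* Ω)) a

lemma base_conj (D : Family Ω I) (q : (Polynomial Ω)) :
    (D.conj σ).base q = D.base ((pol σ).symm q) := rfl

/-- conjugate points of the cover -/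
noncomputable def Family.fibEquiv (D : Family Ω I) (a : Ω) : D.Fib a ≃ (D.conj σ).Fib (σ a) where
  toFun := fun β =>
    { hom := (σ : Ω →+* Ω).comp β.hom
      comp := fun q => by
        change σ (β.hom ((D.conj σ).base q)) = _
        rw [base_conj, β.comp, ← eval_pol, RingEquiv.apply_symm_apply] }
  invFun := fun β =>
    { hom := (σ.symm : Ω →+* Ω).comp β.hom
      comp := fun q => by
        have h1 := β.comp (pol σ q)
        rw [base_conj, RingEquiv.symm_apply_apply, eval_pol] at h1
        change σ.symm (β.hom (D.base q)) = _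
        rw [AlgEquiv.symm_apply_eq]
        exact h1 }
  left_inv := fun β => by
    apply Family.Fib.ext
    ext x
    exact σ.symm_apply_apply _
  right_inv := fun β => by
    apply Family.Fib.ext
    ext x
    exact σ.apply_symm_apply _

lemma Family.act_fiber (D : Family Ω I) (a : Ω) :
    cact σ (D.fiber a) = (D.conj σ).fiber (σ a) := by
  have h1 : cact σ (D.fiber a) = ∑ᶠ β : D.Fib a, cact σ (Finsupp.single (D.pt β) 1) :=
    AddMonoidHom.map_finsum_of_injective (cact σ).toAddMonoidHom (cact_injective σ) _
  rw [h1, Family.fiber, ← finsum_comp_equiv (D.fibEquiv σ a)]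
  refine finsum_congr fun β => ?_
  rw [cact_single]
  rfl

lemma rat_stable {z : Pt Ω I →₀ ℚ} (hz : z ∈ rat Ω I) : cact σ z ∈ rat Ω I := by
  have h1 : (rat Ω I).map (cact σ) ≤ rat Ω I := by
    rw [rat, Submodule.map_span, Submodule.span_le]
    rintro _ ⟨z, hz | hz, rfl⟩
    · obtain ⟨P, Q, c, hQ, rfl⟩ := hz
      refine Submodule.subset_span (Or.inl ⟨P.act σ, Q.act σ, σ c, ?_, ?_⟩)
      · funext i
        change σ (Q.1 i) = σ c * σ (P.1 i)
        rw [← map_mul, hQ]
        rfl
      · rw [map_sub, cact_single, cact_single]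
    · obtain ⟨D, a, b, ha, hb, rfl⟩ := hz
      have h2 : ∀ a : Ω, (D.conj σ).f.eval (σ a) = σ (D.f.eval a) := by
        intro a
        change eval (σ a) (Polynomial.map _ D.f) = _
        exact Polynomial.eval_map_apply (f := (σ : Ω →+* Ω)) a
      refine Submodule.subset_span (Or.inr ⟨D.conj σ, σ a, σ b, ?_, ?_, ?_⟩)
      · rw [h2]
        exact fun h => ha ((map_eq_zero σ).mp h)
      · rw [h2]
        exact fun h => hb ((map_eq_zero σ).mp h)
      · rw [map_sub, D.act_fiber, D.act_fiber]
  exact h1 ⟨z, hz, rfl⟩

end act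

end Pool.Agent.Run7.h508.ZC
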