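import Mathlib
import Pool.Agent.Run7.h508.ZC.Cyc
import Pool.Agent.Run7.h508.BR.GM

/-!
# The Galois representation on zero-cycles modulo rational equivalence
-/

set_option autoImplicit false
set_option linter.unusedSectionVars false

namespace Pool.Agent.Run7.h508.ZC

open Polynomial NumberField Pool.Agent.Run7.h508.BR

section rep

variable {k : Type} [Field k] (Ω : Type) [Field Ω] [Algebra k Ω] {n : ℕ}
  (I : Set (MvPolynomial (Fin (n + 1)) k))

/-- the zero-cycles modulo rational equivalence -/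
abbrev Chow : Type := (Pt Ω I →₀ ℚ) ⧸ rat Ω I

lemma cact_one (z : Pt Ω I →₀ ℚ) : cact (1 : Ω ≃ₐ[k] Ω) z = z := by
  have h : (Pt.act (1 : Ω ≃ₐ[k] Ω) : Pt Ω I → Pt Ω I) = id := by
    funext P
    rfl
  rw [cact, Finsupp.lmapDomain_apply, h, Finsupp.mapDomain_id]

lemma cact_mul (σ τ : Ω ≃ₐ[k] Ω) (z : Pt Ω I →₀ ℚ) : cact (σ * τ) z = cact σ (cact τ z) := by
  rw [cact, cact, cact, Finsupp.lmapDomain_apply, Finsupp.lmapDomain_apply,
    Finsupp.lmapDomain_apply, ← Finsupp.mapDomain_comp]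
  rfl

/-- the action on the cycles modulo rational equivalence -/
noncomputable def chowAct (σ : Ω ≃ₐ[k] Ω) : Chow Ω I →ₗ[ℚ] Chow Ω I :=
  Submodule.mapQ _ _ (cact σ) fun _ hz => rat_stable σ hz

lemma chowAct_mk (σ : Ω ≃ₐ[k] Ω) (z : Pt Ω I →₀ ℚ) :
    chowAct Ω I σ (Submodule.Quotient.mk z) = Submodule.Quotient.mk (cact σ z) := rfl

/-- the representation on a stable subspace -/
noncomputable def trep (T : Submodule ℚ (Chow Ω I)) (hT : ∀ σ, ∀ c ∈ T, chowAct Ω I σ c ∈ T) :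
    Representation ℚ (Ω ≃ₐ[k] Ω) T where
  toFun := fun σ => (chowAct Ω I σ).restrict (hT σ)
  map_one' := by
    ext c
    obtain ⟨z, hz⟩ := Submodule.Quotient.mk_surjective _ c.1
    change chowAct Ω I 1 c.1 = c.1
    rw [← hz, chowAct_mk, cact_one]
  map_mul' := fun σ τ => by
    ext c
    obtain ⟨z, hz⟩ := Submodule.Quotient.mk_surjective _ c.1
    change chowAct Ω I (σ * τ) c.1 = chowAct Ω I σ (chowAct Ω I τ c.1)
    rw [← hz, chowAct_mk, chowAct_mk, chowAct_mk, cact_mul]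

/-- the degree -/
noncomputable def degree : (Pt Ω I →₀ ℚ) →ₗ[ℚ] ℚ :=
  Finsupp.linearCombination ℚ (fun _ : Pt Ω I => (1 : ℚ))

/-- the classes of the cycles of degree zero -/
noncomputable def deg0 : Submodule ℚ (Chow Ω I) :=
  (LinearMap.ker (degree Ω I)).map (rat Ω I).mkQ

lemma degree_cact (σ : Ω ≃ₐ[k] Ω) (z : Pt Ω I →₀ ℚ) : degree Ω I (cact σ z) = degree Ω I z := by
  rw [degree, cact, Finsupp.lmapDomain_apply, Finsupp.linearCombination_mapDomain]
  rfl

lemma deg0_stable (σ : Ω ≃ₐ[k] Ω) (c : Chow Ω I) (hc : c ∈ deg0 Ω I) :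
    chowAct Ω I σ c ∈ deg0 Ω I := by
  obtain ⟨z, hz, rfl⟩ := hc
  refine ⟨cact σ z, ?_, rfl⟩
  have h : degree Ω I z = 0 := hz
  change degree Ω I (cact σ z) = 0
  rw [degree_cact, h]

end rep

section disc

variable {k : Type} [Field k] [NumberField k] {Ω : Type} [Field Ω] [Algebra k Ω]
  [Algebra.IsAlgebraic k Ω] {n : ℕ} {I : Set (MvPolynomial (Fin (n + 1)) k)}

/-- a cycle is defined over a number field -/
lemma exists_field (z : Pt Ω I →₀ ℚ) : ∃ (K : Type) (_ : Field K) (_ : NumberField K)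
    (_ : Algebra k K) (j : K →ₐ[k] Ω), ∀ σ : Ω ≃ₐ[k] Ω, (∀ x : K, σ (j x) = j x) →
      cact σ z = z := by
  classical
  let S : Finset Ω := z.support.biUnion fun P => Finset.univ.image P.1
  let E := IntermediateField.adjoin k (S : Set Ω)
  have hfin : FiniteDimensional k E := IntermediateField.finiteDimensional_adjoin fun x _ =>
    Algebra.IsIntegral.isIntegral x
  have hN : NumberField E := NumberField.of_module_finite k E
  refine ⟨E, inferInstance, hN, inferInstance, E.val, fun σ hσ => ?_⟩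
  have h1 : ∀ P ∈ z.support, Pt.act σ P = P := by
    intro P hP
    apply Subtype.ext
    funext i
    have h2 : P.1 i ∈ E := by
      apply IntermediateField.subset_adjoin
      exact Finset.mem_coe.mpr (Finset.mem_biUnion.mpr ⟨P, hP,
        Finset.mem_image.mpr ⟨i, Finset.mem_univ _, rfl⟩⟩)
    exact hσ ⟨P.1 i, h2⟩
  rw [cact, Finsupp.lmapDomain_apply]
  refine (Finsupp.mapDomain_congr (g := id) fun P hP => h1 P hP).trans ?_
  exact Finsupp.mapDomain_id

end disc

section main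

variable {k : Type} [Field k] [NumberField k] {Ω : Type} [Field Ω] [Algebra k Ω]
  [Algebra.IsAlgebraic k Ω] [IsAlgClosed Ω] {n : ℕ} {I : Set (MvPolynomial (Fin (n + 1)) k)}
  (T : Submodule ℚ (Chow Ω I)) (hT : ∀ σ, ∀ c ∈ T, chowAct Ω I σ c ∈ T)

/-- the class is fixed by the automorphisms which fix the image of `j` -/
def CFixed {K : Type} [Field K] [Algebra k K] (j : K →ₐ[k] Ω) (c : Chow Ω I) : Prop :=
  ∀ σ : Ω ≃ₐ[k] Ω, (∀ x : K, σ (j x) = j x) → chowAct Ω I σ c = c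

lemma fixed_iff {K : Type} [Field K] [Algebra k K] (j : K →ₐ[k] Ω) (c : T) :
    Fixed (trep Ω I T hT) j c ↔ CFixed j c.1 := by
  constructor
  · intro h σ hσ
    exact congrArg Subtype.val (h σ hσ)
  · intro h σ hσ
    exact Subtype.ext (h σ hσ)

/-- no growth in the unramified case -/
def CNoGrow (m : ℕ) : Prop :=
  ∀ (K L : Type) [Field K] [NumberField K] [Field L] [NumberField L] [Algebra k K] [Algebra K L]
    [Algebra k L] [IsScalarTower k K L] [IsGalois K L], IsTotallyComplex K →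
    (Module.finrank K L).Prime → UnrSplit m K L → ∀ (j : L →ₐ[k] Ω), ∀ c ∈ T,
    CFixed j c → CFixed (j.comp (IsScalarTower.toAlgHom k K L)) c

lemma gNoGrow {m : ℕ} (h : CNoGrow T m) : GNoGrow (trep Ω I T hT) m := by
  intro K L _ _ _ _ _ _ _ _ _ hK hp hu j c hc
  rw [fixed_iff] at hc ⊢
  exact h K L hK hp hu j c.1 c.2 hc

include hT in
theorem c_noGrow {m : ℕ} (hm : m ≠ 0) (h : CNoGrow T m) (K L : Type) [Field K] [NumberField K]
    [Field L] [NumberField L] [Algebra k K] [Algebra k L] (hK : IsTotallyComplex K)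
    (f : K →ₐ[k] L) (j : L →ₐ[k] Ω) (c : Chow Ω I) (hcT : c ∈ T) (hc : CFixed j c) :
    CFixed (j.comp f) c := by
  have h1 := gm_noGrow (trep Ω I T hT) hm (gNoGrow T hT h) K L hK f j ⟨c, hcT⟩
    ((fixed_iff T hT j ⟨c, hcT⟩).mpr hc)
  exact (fixed_iff T hT _ ⟨c, hcT⟩).mp h1

include hT in
theorem c_vanish {m : ℕ} (hm : m ≠ 0) (hk : IsTotallyComplex k)
    (h0 : ∀ c ∈ T, (∀ σ, chowAct Ω I σ c = c) → c = 0) (h : CNoGrow T m) (c : Chow Ω I)
    (hc : c ∈ T) : c = 0 := by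
  have h1 := gm_vanish (trep Ω I T hT) hm hk (fun v => by
    obtain ⟨z, hz⟩ := Submodule.Quotient.mk_surjective _ v.1
    obtain ⟨K, i1, i2, i3, j, hj⟩ := exists_field z
    refine ⟨K, i1, i2, i3, j, (fixed_iff T hT j v).mpr fun σ hσ => ?_⟩
    rw [← hz, chowAct_mk, hj σ hσ]) (fun v hv => by
      apply Subtype.ext
      exact h0 v.1 v.2 fun σ => congrArg Subtype.val (hv σ)) (gNoGrow T hT h) ⟨c, hc⟩
  exact congrArg Subtype.val h1

end main

end Pool.Agent.Run7.h508.ZC
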